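import Pool.Agent.Q216.RK.Basic

/-!
# Project RK, job DEPTH: the fraction of the points alive after `t` steps
-/

set_option autoImplicit false

namespace Pool.Agent.Q153.RK

open Pool.Agent.Q216.RK

theorem path_succ (A : Cj → Option Cj) (x : List Bool) (t : ℕ) :
    path A x (t + 1) = stp A x (path A x t) := by
  unfold path
  rw [Function.iterate_succ_apply']

theorem stp_prefix (A : Cj → Option Cj) (x : List Bool) (π : Cj) : π <+: stp A x π := by
  unfold stp
  cases A π with
  | none => exact List.prefix_rfl
  | some K => exact List.prefix_append _ _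

theorem path_prefix (A : Cj → Option Cj) (x : List Bool) {s t : ℕ} (h : s ≤ t) :
    path A x s <+: path A x t := by
  induction t, h using Nat.le_induction with
  | base => exact List.prefix_rfl
  | succ t _ ih =>
    rw [path_succ]
    exact ih.trans (stp_prefix A x _)

theorem satB_prefix {π ρ : Cj} (h : π <+: ρ) {x : List Bool} (hx : satB ρ x = true) :
    satB π x = true := by
  unfold satB at *
  rw [List.all_eq_true] at *
  exact fun l hl => hx l (h.subset hl)

theorem aliveB_succ (A : Cj → Option Cj) (x : List Bool) (t : ℕ) :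
    aliveB A x (t + 1) = (aliveB A x t && (match A (path A x t) with
      | some K => !K.isEmpty && !(satB K x)
      | none => false)) := by
  unfold aliveB
  rw [List.range_succ, List.all_append, List.all_cons, List.all_nil, Bool.and_true]
  rfl

theorem wf_of_fresh {n : ℕ} {π K : Cj} (hf : freshB π K = true) (hK : ∀ l ∈ K, l.1 < n) :
    Wf n K := by
  refine ⟨?_, hK⟩
  unfold freshB at hf
  rw [List.all_eq_true] at hf
  rw [List.nodup_iff_count_le_one]
  intro a
  by_cases ha : a ∈ K.map Prod.fst
  · obtain ⟨l, hl, rfl⟩ := List.mem_map.1 ha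
    have h1 := hf l hl
    rw [Bool.and_eq_true, decide_eq_true_eq] at h1
    refine le_trans (le_of_eq ?_) h1.2
    rw [List.count, List.countP_map, List.countP_eq_length_filter]
    congr 1
  · rw [List.count_eq_zero_of_not_mem ha]
    exact Nat.zero_le _

theorem not_hasVar_of_fresh {π K : Cj} (hf : freshB π K = true) {l : ℕ × Bool} (hl : l ∈ K) :
    hasVar π l.1 = false := by
  unfold freshB at hf
  rw [List.all_eq_true] at hf
  have h1 := hf l hl
  rw [Bool.and_eq_true] at h1
  simpa using h1.1

theorem getElem?_ofFn_getD {n : ℕ} (x : Pt n) {j : ℕ} (hj : j < n) :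
    (List.ofFn x)[j]? = some ((List.ofFn x).getD j false) := by
  rw [List.getD_eq_getElem?_getD, List.getElem?_eq_getElem (by simpa using hj)]
  simp

theorem satB_congr {n : ℕ} {K : Cj} (hK : ∀ l ∈ K, l.1 < n) {x y : Pt n}
    (h : ∀ l ∈ K, (List.ofFn x).getD l.1 false = (List.ofFn y).getD l.1 false) :
    satB K (List.ofFn x) = satB K (List.ofFn y) := by
  unfold satB
  rw [Bool.eq_iff_iff, List.all_eq_true, List.all_eq_true]
  refine forall_congr' fun l => forall_congr' fun hl => ?_
  unfold litB
  rw [getElem?_ofFn_getD x (hK l hl), getElem?_ofFn_getD y (hK l hl), h l hl]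

section
variable {n m : ℕ} {A : Cj → Option Cj}

theorem path_eq_of_le (hT : S_TREE) (hA : Fair n m A) {x y : Pt n} {s t : ℕ} (hst : s ≤ t)
    (h : path A (List.ofFn x) t = path A (List.ofFn y) t) :
    path A (List.ofFn x) s = path A (List.ofFn y) s := by
  refine (hT n m A hA s).2 x y ?_
  refine satB_prefix (path_prefix A (List.ofFn y) hst) ?_
  rw [← h]
  exact ((hT n m A hA t).1 x).2.2

/-- the status of a point depends on its context only -/
theorem alive_congr (hT : S_TREE) (hA : Fair n m A) {x y : Pt n} {t : ℕ}
    (h : path A (List.ofFn x) t = path A (List.ofFn y) t) :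
    aliveB A (List.ofFn x) t = aliveB A (List.ofFn y) t := by
  unfold aliveB
  rw [Bool.eq_iff_iff, List.all_eq_true, List.all_eq_true]
  refine forall_congr' fun s => forall_congr' fun hs => ?_
  rw [List.mem_range] at hs
  have e1 := path_eq_of_le hT hA hs.le h
  have e2 := path_eq_of_le hT hA (Nat.succ_le_of_lt hs) h
  rw [Nat.succ_eq_add_one, path_succ, path_succ, e1] at e2
  rw [e1]
  cases hK : A (path A (List.ofFn y) s) with
  | none => exact Iff.rfl
  | some K =>
    unfold stp at e2
    rw [hK] at e2
    simp only [List.append_cancel_left_eq] at e2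
    have hfair := hA _ K hK
    have hsat : satB K (List.ofFn x) = satB K (List.ofFn y) := by
      refine satB_congr hfair.2.2 fun l hl => ?_
      have := (List.map_inj_left.1 e2) l hl
      exact (Prod.mk.inj this).2
    simp only [hsat]

/-- independence of the context and a fresh conjunction -/
theorem Ex_fresh (hB : S_BRI) {π K : Cj} (hπ : Wf n π) (hf : freshB π K = true)
    (hK : ∀ l ∈ K, l.1 < n) :
    Ex (fun x : Pt n => ind (satB π (List.ofFn x)) * ind (satB K (List.ofFn x))) =
      Ex (fun x : Pt n => ind (satB π (List.ofFn x))) * (1 / 2) ^ K.length := by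
  obtain ⟨a1, a2, a3⟩ := hB.1 n π hπ
  obtain ⟨b1, b2, b3⟩ := hB.1 n K (wf_of_fresh hf hK)
  simp only [a2, b2]
  rw [Ex_ind (dep_satT _) (dep_satT _), Ex_satT (tm n K), b1]
  rw [Finset.disjoint_left]
  intro i hi hi'
  have h1 := (a3 i).1 (mem_vars.1 hi)
  have h2 := (b3 i).1 (mem_vars.1 hi')
  unfold hasVar at h2
  rw [List.any_eq_true] at h2
  obtain ⟨l, hl, hli⟩ := h2
  rw [decide_eq_true_eq] at hli
  have h3 := not_hasVar_of_fresh hf hl
  rw [hli, h1] at h3
  exact Bool.noConfusion h3

/-- Choosing the points with a given context. -/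
theorem sum_ctx (hT : S_TREE) (hA : Fair n m A) (t : ℕ) (y : Pt n) (g : Pt n → ℝ) :
    ∑ x ∈ Finset.univ.filter (fun x : Pt n => path A (List.ofFn x) t = path A (List.ofFn y) t),
      g x = ∑ x : Pt n, ind (satB (path A (List.ofFn y) t) (List.ofFn x)) * g x := by
  rw [Finset.sum_filter]
  refine Finset.sum_congr rfl fun x _ => ?_
  by_cases h : path A (List.ofFn x) t = path A (List.ofFn y) t
  · rw [if_pos h]
    have : satB (path A (List.ofFn y) t) (List.ofFn x) = true := by
      rw [← h]; exact ((hT n m A hA t).1 x).2.2
    rw [this, ind_true, one_mul]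
  · rw [if_neg h]
    have : satB (path A (List.ofFn y) t) (List.ofFn x) = false := by
      by_contra hc
      rw [Bool.not_eq_false] at hc
      exact h ((hT n m A hA t).2 x y hc)
    rw [this, ind_false, zero_mul]

/-- The points of a context which survive the next step. -/
theorem ctx_step (hT : S_TREE) (hB : S_BRI) (hA : Fair n m A) (t : ℕ) (y : Pt n) :
    ∑ x ∈ Finset.univ.filter (fun x : Pt n => path A (List.ofFn x) t = path A (List.ofFn y) t),
      ind (match A (path A (List.ofFn x) t) with
        | some K => !K.isEmpty && !(satB K (List.ofFn x))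
        | none => false) ≤
    (1 - (1 / 2) ^ m) * ((Finset.univ.filter (fun x : Pt n =>
      path A (List.ofFn x) t = path A (List.ofFn y) t)).card : ℝ) := by
  set P := Finset.univ.filter (fun x : Pt n =>
    path A (List.ofFn x) t = path A (List.ofFn y) t) with hP
  have hm1 : (1 / 2 : ℝ) ^ m ≤ 1 := pow_le_one₀ (by norm_num) (by norm_num)
  have hc0 : (0 : ℝ) ≤ (P.card : ℝ) := Nat.cast_nonneg _
  have hR : 0 ≤ (1 - (1 / 2 : ℝ) ^ m) * (P.card : ℝ) := mul_nonneg (by linarith) hc0
  have h1 : ∀ x ∈ P, (ind (match A (path A (List.ofFn x) t) with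
        | some K => !K.isEmpty && !(satB K (List.ofFn x))
        | none => false)) = (ind (match A (path A (List.ofFn y) t) with
        | some K => !K.isEmpty && !(satB K (List.ofFn x))
        | none => false)) := by
    intro x hx
    rw [hP, Finset.mem_filter] at hx
    rw [hx.2]
  rw [Finset.sum_congr rfl h1]
  cases hK : A (path A (List.ofFn y) t) with
  | none =>
    simp only [ind_false, Finset.sum_const_zero]
    exact hR
  | some K =>
    have hfair := hA _ K hK
    cases hE : K.isEmpty with
    | true =>
      simp only [hE, Bool.not_true, Bool.false_and, ind_false, Finset.sum_const_zero]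
      exact hR
    | false =>
      simp only [hE, Bool.not_false, Bool.true_and, ind_not]
      rw [Finset.sum_sub_distrib, Finset.sum_const, nsmul_eq_mul, mul_one]
      have h2 : ∑ x ∈ P, ind (satB K (List.ofFn x)) = (P.card : ℝ) * (1 / 2) ^ K.length := by
        have e1 := sum_ctx hT hA t y (fun x => ind (satB K (List.ofFn x)))
        have e2 := sum_ctx hT hA t y (fun _ => (1 : ℝ))
        have e3 := Ex_fresh (n := n) hB ((hT n m A hA t).1 y).1 hfair.2.1 hfair.2.2
        unfold Ex at e3
        rw [div_mul_eq_mul_div, div_left_inj' (by positivity)] at e3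
        rw [e1, e3]
        congr 1
        rw [Finset.sum_const, nsmul_eq_mul, mul_one] at e2
        rw [e2]
        exact Finset.sum_congr rfl fun _ _ => (mul_one _).symm
      rw [h2]
      have h3 : (1 / 2 : ℝ) ^ m ≤ (1 / 2) ^ K.length :=
        pow_le_pow_of_le_one (by norm_num) (by norm_num) hfair.1
      have h4 := mul_le_mul_of_nonneg_left h3 hc0
      linarith

end

theorem t_DEPTH (hT : S_TREE) (hB : S_BRI) : S_DEPTH := by
  classical
  intro n m A hA t
  have hm1 : (1 / 2 : ℝ) ^ m ≤ 1 := pow_le_one₀ (by norm_num) (by norm_num)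
  have hq : (0 : ℝ) ≤ 1 - (1 / 2) ^ m := by linarith
  induction t with
  | zero =>
    have : ∀ x : Pt n, ind (aliveB A (List.ofFn x) 0) = 1 := by
      intro x
      simp [aliveB, ind]
    simp only [this]
    rw [Ex_const, pow_zero]
  | succ t ih =>
    have key : Ex (fun x : Pt n => ind (aliveB A (List.ofFn x) (t + 1))) ≤
        (1 - (1 / 2) ^ m) * Ex (fun x : Pt n => ind (aliveB A (List.ofFn x) t)) := by
      unfold Ex
      rw [← mul_div_assoc]
      refine div_le_div_of_nonneg_right ?_ (by positivity)
      have e0 : ∀ x : Pt n, ind (aliveB A (List.ofFn x) (t + 1)) =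
          ind (aliveB A (List.ofFn x) t) * ind (match A (path A (List.ofFn x) t) with
            | some K => !K.isEmpty && !(satB K (List.ofFn x))
            | none => false) := by
        intro x
        rw [aliveB_succ, ind_and]
      simp only [e0]
      set p : Pt n → Cj := fun x => path A (List.ofFn x) t with hp
      set I := Finset.univ.image p with hI
      have hmaps : ∀ x ∈ (Finset.univ : Finset (Pt n)), p x ∈ I :=
        fun x hx => Finset.mem_image_of_mem p hx
      rw [← Finset.sum_fiberwise_of_maps_to hmaps, ← Finset.sum_fiberwise_of_maps_to hmaps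
        (fun x => ind (aliveB A (List.ofFn x) t)), Finset.mul_sum]
      refine Finset.sum_le_sum fun π hπ => ?_
      obtain ⟨y, -, rfl⟩ := Finset.mem_image.1 hπ
      have hcongr : ∀ x ∈ Finset.univ.filter (fun x => p x = p y),
          aliveB A (List.ofFn x) t = aliveB A (List.ofFn y) t := by
        intro x hx
        exact alive_congr hT hA (Finset.mem_filter.1 hx).2
      have h2 := ctx_step hT hB hA t y
      have s1 : ∑ x ∈ Finset.univ.filter (fun x => p x = p y),
          ind (aliveB A (List.ofFn x) t) = ind (aliveB A (List.ofFn y) t) *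
            ((Finset.univ.filter (fun x : Pt n => p x = p y)).card : ℝ) := by
        rw [Finset.sum_congr rfl (fun x hx => by rw [hcongr x hx]), Finset.sum_const,
          nsmul_eq_mul, mul_comm]
      have s2 : ∑ x ∈ Finset.univ.filter (fun x => p x = p y),
          ind (aliveB A (List.ofFn x) t) * ind (match A (path A (List.ofFn x) t) with
            | some K => !K.isEmpty && !(satB K (List.ofFn x))
            | none => false) = ind (aliveB A (List.ofFn y) t) *
          ∑ x ∈ Finset.univ.filter (fun x => p x = p y),
            ind (match A (path A (List.ofFn x) t) with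
            | some K => !K.isEmpty && !(satB K (List.ofFn x))
            | none => false) := by
        rw [Finset.mul_sum]
        exact Finset.sum_congr rfl (fun x hx => by rw [hcongr x hx])
      rw [s1, s2]
      calc _ ≤ ind (aliveB A (List.ofFn y) t) * ((1 - (1 / 2) ^ m) *
            ((Finset.univ.filter (fun x : Pt n => p x = p y)).card : ℝ)) :=
            mul_le_mul_of_nonneg_left h2 (ind_nonneg _)
        _ = _ := by ring
    calc _ ≤ _ := key
      _ ≤ (1 - (1 / 2) ^ m) * (1 - (1 / 2) ^ m) ^ t := mul_le_mul_of_nonneg_left ih hq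
      _ = _ := by rw [pow_succ]; ring

end Pool.Agent.Q153.RK
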