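import Pool.Agent.Q216.RK.Basic

/-!
# Project RK, job GOOD: the number of bad samples
-/

set_option autoImplicit false

namespace Pool.Agent.Q153.RK

open Pool.Agent.Q216.RK

/-- the exponential moment -/
theorem mgf_le {n : ℕ} {g : Pt n → ℝ} (hg : ∀ x, |g x| ≤ 1) (h0 : ∑ x, g x = 0) {s : ℝ}
    (hs0 : 0 ≤ s) (hs1 : s ≤ 1) : ∑ x, Real.exp (s * g x) ≤ 2 ^ n * Real.exp (s ^ 2) := by
  have h1 : ∀ x : Pt n, Real.exp (s * g x) ≤ 1 + s * g x + s ^ 2 := by
    intro x
    have ha : |s * g x| ≤ 1 := by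
      rw [abs_mul, abs_of_nonneg hs0]
      exact mul_le_one₀ hs1 (abs_nonneg _) (hg x)
    have h2 := Real.abs_exp_sub_one_sub_id_le ha
    have h3 := (abs_le.mp h2).2
    have h4 : (s * g x) ^ 2 ≤ s ^ 2 := by
      rw [mul_pow]
      have : g x ^ 2 ≤ 1 := by
        rw [← sq_abs]
        exact pow_le_one₀ (abs_nonneg _) (hg x)
      nlinarith [sq_nonneg s]
    linarith
  calc ∑ x, Real.exp (s * g x) ≤ ∑ x : Pt n, (1 + s * g x + s ^ 2) :=
        Finset.sum_le_sum fun x _ => h1 x
    _ = 2 ^ n * (1 + s ^ 2) := by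
        rw [Finset.sum_add_distrib, Finset.sum_add_distrib, ← Finset.mul_sum, h0]
        simp only [Finset.sum_const, Finset.card_univ, Fintype.card_fun, Fintype.card_bool,
          Fintype.card_fin, nsmul_eq_mul]
        push_cast
        ring
    _ ≤ 2 ^ n * Real.exp (s ^ 2) := by
        refine mul_le_mul_of_nonneg_left ?_ (by positivity)
        linarith [Real.add_one_le_exp (s ^ 2)]

/-- Chernoff's bound -/
theorem chernoff {n N : ℕ} {g : Pt n → ℝ} (hg : ∀ x, |g x| ≤ 1) (h0 : ∑ x, g x = 0) {τ : ℝ}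
    (ht0 : 0 < τ) (ht1 : τ ≤ 1) :
    (((Finset.univ : Finset (Fin N → Pt n)).filter
      (fun xs => N * τ < ∑ j, g (xs j))).card : ℝ) ≤
      (2 ^ n) ^ N * Real.exp (-(τ ^ 2 * N / 4)) := by
  classical
  set s : ℝ := τ / 2 with hs
  have hs0 : 0 ≤ s := by linarith
  have hs1 : s ≤ 1 := by linarith
  have h1 : (((Finset.univ : Finset (Fin N → Pt n)).filter
      (fun xs => N * τ < ∑ j, g (xs j))).card : ℝ) ≤
      ∑ xs : Fin N → Pt n, Real.exp (s * (∑ j, g (xs j) - N * τ)) := by
    rw [Finset.card_eq_sum_ones, Nat.cast_sum, Nat.cast_one]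
    calc ∑ xs ∈ (Finset.univ : Finset (Fin N → Pt n)).filter
          (fun xs => N * τ < ∑ j, g (xs j)), (1 : ℝ)
        ≤ ∑ xs ∈ (Finset.univ : Finset (Fin N → Pt n)).filter
          (fun xs => N * τ < ∑ j, g (xs j)), Real.exp (s * (∑ j, g (xs j) - N * τ)) := by
          refine Finset.sum_le_sum fun xs hx => ?_
          rw [Finset.mem_filter] at hx
          exact Real.one_le_exp (mul_nonneg hs0 (by linarith [hx.2]))
      _ ≤ _ := Finset.sum_le_sum_of_subset_of_nonneg (Finset.filter_subset _ _)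
          fun _ _ _ => (Real.exp_pos _).le
  refine h1.trans ?_
  have h2 : ∀ xs : Fin N → Pt n, Real.exp (s * (∑ j, g (xs j) - N * τ)) =
      Real.exp (-(s * (N * τ))) * ∏ j, Real.exp (s * g (xs j)) := by
    intro xs
    rw [← Real.exp_sum, ← Real.exp_add, ← Finset.mul_sum]
    congr 1
    ring
  simp only [h2]
  rw [← Finset.mul_sum, ← Fintype.sum_pow (fun x => Real.exp (s * g x)) N]
  have h3 : (∑ x, Real.exp (s * g x)) ^ N ≤ (2 ^ n * Real.exp (s ^ 2)) ^ N :=
    pow_le_pow_left₀ (Finset.sum_nonneg fun _ _ => (Real.exp_pos _).le)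
      (mgf_le hg h0 hs0 hs1) N
  refine (mul_le_mul_of_nonneg_left h3 (Real.exp_pos _).le).trans (le_of_eq ?_)
  rw [mul_pow, ← Real.exp_nat_mul, mul_left_comm, ← Real.exp_add]
  congr 2
  rw [hs]
  ring

theorem card_Tm (n : ℕ) : Fintype.card (Tm n) = 3 ^ n := by
  simp [Tm, Fintype.card_fun, Fintype.card_option]

/-- the frequency as a sum -/
theorem frq_eq {n N : ℕ} (F : Finset (Tm n)) (xs : Fin N → Pt n) (T : Tm n) (b : Bool) :
    (frq F xs T b : ℝ) = ∑ j, ind (satT T (xs j)) * ind (decide (on F (xs j) = b)) := by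
  unfold frq
  rw [Finset.card_eq_sum_ones, Nat.cast_sum, Nat.cast_one, Finset.sum_filter]
  refine Finset.sum_congr rfl fun j _ => ?_
  by_cases h1 : satT T (xs j) = true <;> by_cases h2 : on F (xs j) = b <;>
    simp [h1, h2, ind]

theorem prb_mem {n : ℕ} (F : Finset (Tm n)) (T : Tm n) (b : Bool) :
    0 ≤ prb F T b ∧ prb F T b ≤ 1 := by
  constructor
  · exact Ex_nonneg fun x => mul_nonneg (ind_nonneg _) (ind_nonneg _)
  · have := Ex_mono (n := n) (f := fun x => ind (satT T x) * ind (decide (on F x = b)))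
      (g := fun _ => 1) fun x => mul_le_one₀ (ind_le_one _) (ind_nonneg _) (ind_le_one _)
    rwa [Ex_const] at this

theorem t_GOOD : S_GOOD := by
  classical
  intro n N d F τ hτ hN
  have hN0 : (0 : ℝ) < N := by
    by_contra hc
    push Not at hc
    have h1 : τ ^ 2 * (N : ℝ) ≤ 0 := mul_nonpos_of_nonneg_of_nonpos (sq_nonneg _) hc
    have h2 : (0 : ℝ) ≤ n := Nat.cast_nonneg n
    have h3 : (0 : ℝ) ≤ d := Nat.cast_nonneg d
    linarith
  -- large tolerance
  by_cases hτ1 : 1 < τ
  · have hall : ∀ xs : Fin N → Pt n, Good τ F xs := by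
      intro xs T b
      obtain ⟨p0, p1⟩ := prb_mem F T b
      have f0 : 0 ≤ (frq F xs T b : ℝ) / N := by positivity
      have f1 : (frq F xs T b : ℝ) / N ≤ 1 := by
        rw [div_le_one hN0]
        have : frq F xs T b ≤ N := by
          unfold frq
          refine (Finset.card_filter_le _ _).trans ?_
          simp
        exact_mod_cast this
      rw [abs_le]
      constructor <;> linarith
    haveI : IsEmpty {xs : Fin N → Pt n // ¬ Good τ F xs} := ⟨fun x => x.2 (hall x.1)⟩
    rw [Nat.card_of_isEmpty]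
    simp
  push Not at hτ1
  -- the deviations
  set g : Tm n → Bool → Pt n → ℝ := fun T b x =>
    ind (satT T x) * ind (decide (on F x = b)) - prb F T b with hg
  have hgm : ∀ T b, ∑ x, g T b x = 0 := by
    intro T b
    simp only [hg]
    rw [Finset.sum_sub_distrib]
    have h1 : prb F T b = (∑ x, ind (satT T x) * ind (decide (on F x = b))) / 2 ^ n := rfl
    have h2 : ∑ x, ind (satT T x) * ind (decide (on F x = b)) = 2 ^ n * prb F T b := by
      rw [h1]; field_simp
    rw [h2]
    simp only [Finset.sum_const, Finset.card_univ, Fintype.card_fun, Fintype.card_bool,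
      Fintype.card_fin, nsmul_eq_mul]
    push_cast
    ring
  have hgb : ∀ T b x, |g T b x| ≤ 1 := by
    intro T b x
    obtain ⟨p0, p1⟩ := prb_mem F T b
    have i0 : 0 ≤ ind (satT T x) * ind (decide (on F x = b)) :=
      mul_nonneg (ind_nonneg _) (ind_nonneg _)
    have i1 : ind (satT T x) * ind (decide (on F x = b)) ≤ 1 :=
      mul_le_one₀ (ind_le_one _) (ind_nonneg _) (ind_le_one _)
    simp only [hg]
    rw [abs_le]
    constructor <;> linarith
  set P : Tm n × Bool → Finset (Fin N → Pt n) := fun q =>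
    Finset.univ.filter (fun xs => N * τ < ∑ j, g q.1 q.2 (xs j)) with hP
  set M : Tm n × Bool → Finset (Fin N → Pt n) := fun q =>
    Finset.univ.filter (fun xs => N * τ < ∑ j, (-(g q.1 q.2 (xs j)))) with hM
  have hsub : (Finset.univ.filter (fun xs : Fin N → Pt n => ¬ Good τ F xs)) ⊆
      (Finset.univ : Finset (Tm n × Bool)).biUnion (fun q => P q ∪ M q) := by
    intro xs hxs
    rw [Finset.mem_filter] at hxs
    have h1 := hxs.2
    unfold Good at h1
    push Not at h1
    obtain ⟨T, b, hTb⟩ := h1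
    rw [Finset.mem_biUnion]
    refine ⟨(T, b), Finset.mem_univ _, ?_⟩
    have hsum : ∑ j, g T b (xs j) = (frq F xs T b : ℝ) - N * prb F T b := by
      simp only [hg]
      rw [Finset.sum_sub_distrib, ← frq_eq]
      simp
    rw [Finset.mem_union]
    rcases lt_abs.mp hTb with h | h
    · left
      simp only [hP, Finset.mem_filter, Finset.mem_univ, true_and]
      rw [hsum]
      have : τ * N < ((frq F xs T b : ℝ) / N - prb F T b) * N := mul_lt_mul_of_pos_right h hN0
      rw [sub_mul, div_mul_cancel₀ _ hN0.ne'] at this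
      linarith
    · right
      simp only [hM, Finset.mem_filter, Finset.mem_univ, true_and]
      rw [Finset.sum_neg_distrib, hsum]
      have : τ * N < -((frq F xs T b : ℝ) / N - prb F T b) * N := mul_lt_mul_of_pos_right h hN0
      rw [neg_mul, sub_mul, div_mul_cancel₀ _ hN0.ne'] at this
      linarith
  set Bd : ℝ := (2 ^ n) ^ N * Real.exp (-(τ ^ 2 * N / 4)) with hBd
  have hcardR : (((Finset.univ.filter (fun xs : Fin N → Pt n => ¬ Good τ F xs)).card : ℕ) : ℝ) ≤
      (3 ^ n * 2) * (Bd + Bd) := by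
    have h1 : ((Finset.univ.filter (fun xs : Fin N → Pt n => ¬ Good τ F xs)).card : ℝ) ≤
        ∑ q : Tm n × Bool, (((P q).card : ℝ) + ((M q).card : ℝ)) := by
      have h2 := (Finset.card_le_card hsub).trans Finset.card_biUnion_le
      have h3 : ∑ q : Tm n × Bool, (P q ∪ M q).card ≤
          ∑ q : Tm n × Bool, ((P q).card + (M q).card) :=
        Finset.sum_le_sum fun q _ => Finset.card_union_le _ _
      exact_mod_cast h2.trans h3
    refine h1.trans ?_
    calc ∑ q : Tm n × Bool, (((P q).card : ℝ) + ((M q).card : ℝ))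
        ≤ ∑ _q : Tm n × Bool, (Bd + Bd) := by
          refine Finset.sum_le_sum fun q _ => add_le_add ?_ ?_
          · exact chernoff (hgb q.1 q.2) (hgm q.1 q.2) hτ hτ1
          · refine chernoff (g := fun x => -(g q.1 q.2 x)) (fun x => ?_) ?_ hτ hτ1
            · rw [abs_neg]; exact hgb q.1 q.2 x
            · rw [Finset.sum_neg_distrib, hgm, neg_zero]
      _ = (3 ^ n * 2) * (Bd + Bd) := by
          rw [Finset.sum_const, nsmul_eq_mul, Finset.card_univ, Fintype.card_prod, card_Tm,
            Fintype.card_bool]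
          push_cast
          ring
  have hcard : Nat.card {xs : Fin N → Pt n // ¬ Good τ F xs} =
      (Finset.univ.filter (fun xs : Fin N → Pt n => ¬ Good τ F xs)).card := by
    rw [Nat.card_eq_fintype_card, Fintype.card_subtype]
  rw [hcard]
  -- the numbers
  have hexp : Real.exp (-(τ ^ 2 * N / 4)) ≤ Real.exp (-(2 * (2 * n + d + 4))) := by
    refine Real.exp_le_exp.mpr ?_
    linarith
  have hnum : (2 : ℝ) ^ d * ((3 ^ n * 2) * (2 * Real.exp (-(2 * (2 * n + d + 4))))) ≤ 1 := by
    have e1 : (2 : ℝ) ≤ Real.exp 1 := by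
      have := Real.exp_one_gt_d9
      linarith
    have e2 : (2 : ℝ) ^ d ≤ Real.exp d := by
      calc (2 : ℝ) ^ d ≤ Real.exp 1 ^ d := pow_le_pow_left₀ (by norm_num) e1 d
        _ = Real.exp d := by rw [← Real.exp_nat_mul, mul_one]
    have e3 : (3 : ℝ) ^ n ≤ Real.exp (2 * n) := by
      calc (3 : ℝ) ^ n ≤ (Real.exp 1 * Real.exp 1) ^ n :=
            pow_le_pow_left₀ (by norm_num) (by nlinarith) n
        _ = Real.exp (2 * n) := by
            rw [← Real.exp_add, ← Real.exp_nat_mul]
            congr 1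
            ring
    have e4 : (4 : ℝ) ≤ Real.exp 2 := by
      have : Real.exp 2 = Real.exp 1 * Real.exp 1 := by rw [← Real.exp_add]; norm_num
      rw [this]
      nlinarith
    calc (2 : ℝ) ^ d * ((3 ^ n * 2) * (2 * Real.exp (-(2 * (2 * n + d + 4)))))
        = (2 ^ d * 3 ^ n * 4) * Real.exp (-(2 * (2 * n + d + 4))) := by ring
      _ ≤ (Real.exp d * Real.exp (2 * n) * Real.exp 2) * Real.exp (-(2 * (2 * n + d + 4))) := by
          refine mul_le_mul_of_nonneg_right ?_ (Real.exp_pos _).le
          refine mul_le_mul (mul_le_mul e2 e3 (by positivity) (Real.exp_pos _).le) e4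
            (by norm_num) (by positivity)
      _ = Real.exp (-(2 * n + d + 6)) := by
          rw [← Real.exp_add, ← Real.exp_add, ← Real.exp_add]
          congr 1
          ring
      _ ≤ 1 := by
          refine Real.exp_le_one_iff.mpr ?_
          have h2 : (0 : ℝ) ≤ n := Nat.cast_nonneg n
          have h3 : (0 : ℝ) ≤ d := Nat.cast_nonneg d
          linarith
  have hfin : (2 : ℝ) ^ d *
      ((Finset.univ.filter (fun xs : Fin N → Pt n => ¬ Good τ F xs)).card : ℝ) ≤
      (2 ^ n) ^ N := by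
    have hA : (0 : ℝ) < (2 ^ n) ^ N := by positivity
    calc (2 : ℝ) ^ d *
        ((Finset.univ.filter (fun xs : Fin N → Pt n => ¬ Good τ F xs)).card : ℝ)
        ≤ 2 ^ d * ((3 ^ n * 2) * (Bd + Bd)) :=
          mul_le_mul_of_nonneg_left hcardR (by positivity)
      _ ≤ 2 ^ d * ((3 ^ n * 2) * ((2 ^ n) ^ N * Real.exp (-(2 * (2 * n + d + 4))) +
            (2 ^ n) ^ N * Real.exp (-(2 * (2 * n + d + 4))))) := by
          have h5 : Bd ≤ (2 ^ n) ^ N * Real.exp (-(2 * (2 * n + d + 4))) :=
            mul_le_mul_of_nonneg_left hexp hA.le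
          refine mul_le_mul_of_nonneg_left ?_ (by positivity)
          exact mul_le_mul_of_nonneg_left (add_le_add h5 h5) (by positivity)
      _ = (2 ^ n) ^ N * (2 ^ d * ((3 ^ n * 2) * (2 * Real.exp (-(2 * (2 * n + d + 4)))))) := by
          ring
      _ ≤ (2 ^ n) ^ N * 1 := mul_le_mul_of_nonneg_left hnum hA.le
      _ = _ := mul_one _
  exact_mod_cast hfin

end Pool.Agent.Q153.RK
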