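import Pool.Agent.Q216.RK.Basic

/-!
# Project RK, job SENS: sensitive points of the terms
-/

set_option autoImplicit false

namespace Pool.Agent.Q153.RK

open Pool.Agent.Q216.RK

/-- double counting in a read-k family -/
theorem sum_len_le {k n : ℕ} {G : Finset (Tm n)} (hG : ReadK k G) (Y : Finset (Fin n))
    (hY : ∀ T ∈ G, vars T ⊆ Y) : ∑ T ∈ G, len T ≤ k * Y.card := by
  classical
  have h1 : ∑ T ∈ G, len T = ∑ T ∈ G, ∑ i ∈ Y, if T i ≠ none then 1 else 0 := by
    refine Finset.sum_congr rfl fun T hT => ?_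
    rw [len, Finset.card_eq_sum_ones, ← Finset.sum_filter]
    refine Finset.sum_congr ?_ fun _ _ => rfl
    ext i
    rw [Finset.mem_filter, mem_vars]
    exact ⟨fun h => ⟨hY T hT (mem_vars.2 h), h⟩, fun h => h.2⟩
  rw [h1, Finset.sum_comm]
  calc ∑ i ∈ Y, ∑ T ∈ G, (if T i ≠ none then 1 else 0) ≤ ∑ _i ∈ Y, k := by
        refine Finset.sum_le_sum fun i _ => ?_
        rw [← Finset.sum_filter, ← Finset.card_eq_sum_ones]
        exact hG i
    _ = k * Y.card := by rw [Finset.sum_const, smul_eq_mul, mul_comm]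

theorem flp_ov {n : ℕ} {Y : Finset (Fin n)} {i : Fin n} (hi : i ∈ Y) (y u : Pt n) :
    flp (ov Y y u) i = ov Y (flp y i) u := by
  funext j
  by_cases hj : j = i
  · subst hj
    simp [flp, ov, hi]
  · by_cases hjY : j ∈ Y
    · simp [flp, ov, hj, hjY]
    · simp [flp, ov, hj, hjY]

theorem t_SENS (h1 : S_LLL) (h2 : S_CL) : S_SENS := by
  classical
  intro k l m n F hk hl h34 hm hR hlen hIrr T hT
  obtain ⟨y0, hy0⟩ := hIrr T hT
  obtain ⟨Y, hAY, hYcard, hcl⟩ := h2 k l m n F hk hl hm hR hlen (vars T)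
  set I := F.filter (fun T' => vars T' ⊆ Y) with hI
  have hRI : ReadK k I := hR.mono (Finset.filter_subset _ _)
  have hIin : ∀ T' ∈ I, vars T' ⊆ Y := fun T' h => (Finset.mem_filter.1 h).2
  have hsum := sum_len_le hRI Y hIin
  have hge : I.card * m ≤ ∑ T' ∈ I, len T' := by
    rw [← smul_eq_mul, ← Finset.sum_const]
    exact Finset.sum_le_sum fun T' h => hlen T' (Finset.mem_filter.1 h).1
  have hcardlt : I.card < len T := by
    have hTm := hlen T hT
    have hY4 : 3 * Y.card ≤ 4 * len T := hYcard
    have e1 : I.card * m ≤ k * Y.card := hge.trans hsum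
    have e2 : 4 * k ≤ m := (Nat.le_mul_of_pos_right _ (by omega)).trans hm
    have e3 : I.card * (4 * k) ≤ k * Y.card := (Nat.mul_le_mul_left _ e2).trans e1
    have e4 : I.card * 4 ≤ Y.card := by
      have : k * (I.card * 4) ≤ k * Y.card := by
        calc k * (I.card * 4) = I.card * (4 * k) := by ring
          _ ≤ _ := e3
      exact Nat.le_of_mul_le_mul_left this (by omega)
    have e5 : 0 < len T := by
      have : 0 < 4 * k := by omega
      omega
    omega
  -- a good variable
  have hgood : ∃ i ∈ vars T, ∀ T' ∈ I, satT T' (flp y0 i) = false := by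
    by_contra hcon
    push Not at hcon
    have hcon' : ∀ i ∈ vars T, ∃ T' ∈ I, satT T' (flp y0 i) = true := by
      intro i hi
      obtain ⟨T', hT', hne⟩ := hcon i hi
      exact ⟨T', hT', by simpa using hne⟩
    choose! f hfI hfs using hcon'
    have hTs : satT T y0 = true := (hy0 T hT).2 rfl
    have hfne : ∀ i ∈ vars T, f i ≠ T := by
      intro i hi heq
      have h3 := hfs i hi
      rw [heq, satT_iff] at h3
      obtain ⟨b, hb⟩ := Option.ne_none_iff_exists'.1 (mem_vars.1 hi)
      have h4 := h3 i b hb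
      have h5 := satT_iff.1 hTs i b hb
      rw [flp_same, h5] at h4
      cases b <;> simp at h4
    have hff : ∀ i ∈ vars T, satT (f i) y0 = false := by
      intro i hi
      by_contra hc
      rw [Bool.not_eq_false] at hc
      exact hfne i hi ((hy0 (f i) (Finset.mem_filter.1 (hfI i hi)).1).1 hc)
    have huniq : ∀ i ∈ vars T, ∀ c, f i c = some (!(y0 c)) → c = i := by
      intro i hi c hc
      by_contra hne
      have h3 := satT_iff.1 (hfs i hi) c _ hc
      rw [flp_of_ne y0 hne] at h3
      cases hh : y0 c <;> simp [hh] at h3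
    have hinj : Set.InjOn f (vars T : Set (Fin n)) := by
      intro i hi j hj hij
      obtain ⟨c, hc⟩ := satT_false_iff.1 (hff i hi)
      have e1 := huniq i hi c hc
      have e2 := huniq j hj c (by rw [← hij]; exact hc)
      rw [← e1, ← e2]
    have hle : (vars T).card ≤ I.card :=
      Finset.card_le_card_of_injOn f (fun i hi => hfI i hi) hinj
    have : len T ≤ I.card := hle
    omega
  obtain ⟨i, hiT, hgi⟩ := hgood
  -- the terms outside
  set O := F.filter (fun T' => ¬ vars T' ⊆ Y) with hO
  set G := O.image (fun T' => cut T' Y) with hG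
  have hRG : ReadK k G := (hR.mono (Finset.filter_subset _ _)).image_cut Y
  have hlG : ∀ S ∈ G, l ≤ len S := by
    intro S hS
    obtain ⟨T', hT', rfl⟩ := Finset.mem_image.1 hS
    rw [len_cut]
    rw [hO, Finset.mem_filter] at hT'
    exact (hcl T' hT'.1).resolve_left hT'.2
  have hoff : 0 < off G := (h1 k l n G hRG hlG h34).2.2 hl
  obtain ⟨u, hu⟩ := exists_of_Ex_pos hoff
  have hu' : on G u = false := by
    cases h : on G u
    · rfl
    · rw [h] at hu
      simp [ind] at hu
  rw [on_false_iff] at hu'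
  have hout : ∀ (y : Pt n), ∀ T' ∈ F, ¬ vars T' ⊆ Y → satT T' (ov Y y u) = false := by
    intro y T' hT' hno
    by_contra hc
    rw [Bool.not_eq_false] at hc
    have h3 := (satT_ov.1 hc).2
    have h4 := hu' (cut T' Y) (Finset.mem_image.2 ⟨T', Finset.mem_filter.2 ⟨hT', hno⟩, rfl⟩)
    rw [h3] at h4
    exact Bool.noConfusion h4
  refine ⟨i, ov Y y0 u, mem_vars.1 hiT, ?_, ?_⟩
  · intro T' hT'
    by_cases hin : vars T' ⊆ Y
    · rw [satT_ov_of_subset hin]
      exact hy0 T' hT'
    · rw [hout y0 T' hT' hin]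
      constructor
      · intro h; exact Bool.noConfusion h
      · rintro rfl; exact absurd hAY hin
  · rw [flp_ov (hAY hiT), on_false_iff]
    intro T' hT'
    by_cases hin : vars T' ⊆ Y
    · rw [satT_ov_of_subset hin]
      exact hgi T' (Finset.mem_filter.2 ⟨hT', hin⟩)
    · exact hout _ T' hT' hin

end Pool.Agent.Q153.RK
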